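import Mathlib
open Matrix
namespace Pool.Agent.Results.MP_25f4f2_al.Unstable


/-- The minor of `A` with rows `α` and columns `β`, two increasing index sequences of length `k`. -/
noncomputable def minor {n k : ℕ} (A : Matrix (Fin n) (Fin n) ℂ) (α β : Fin k ↪o Fin n) : ℂ :=
  (A.submatrix α β).det

/-- The complex number `z` is real and positive. -/
def RealPos (z : ℂ) : Prop := z.im = 0 ∧ 0 < z.re

/-- The dispersal `#α - #(α ∩ β)` of the minor with rows `α` and columns `β`. -/
def dispersal {n k : ℕ} (α β : Fin k ↪o Fin n) : ℕ :=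
  k - (Finset.univ.image α ∩ Finset.univ.image β).card

/-- `A` is a P-matrix: all principal minors are (real and) positive. -/
def IsPMatrix {n : ℕ} (A : Matrix (Fin n) (Fin n) ℂ) : Prop :=
  ∀ (k : ℕ) (α : Fin k ↪o Fin n), RealPos (minor A α α)

/-- `A` is strict GKK: a P-matrix with `A[α,β] A[β,α] > 0` for every almost principal minor. -/
def IsStrictGKK {n : ℕ} (A : Matrix (Fin n) (Fin n) ℂ) : Prop :=
  IsPMatrix A ∧ ∀ (k : ℕ) (α β : Fin k ↪o Fin n), dispersal α β = 1 → RealPos (minor A α β * minor A β α)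

section Pivot
variable {ι : Type*} {K : Type*} [Field K]

/-- one step of Gaussian elimination with pivot `k` (Schur complement of the entry `k k`) -/
def piv (A : Matrix ι ι K) (k : ι) : Matrix ι ι K := fun i j => A i j - A i k * A k j / A k k

theorem det_piv {m : ℕ} (A : Matrix ι ι K) (k : ι) (hk : A k k ≠ 0) (f g : Fin m → ι) :
    (A.submatrix (Fin.cons k f : Fin (m+1) → ι) (Fin.cons k g : Fin (m+1) → ι)).det
      = A k k * ((piv A k).submatrix f g).det := by
  set M := A.submatrix (Fin.cons k f : Fin (m+1) → ι) (Fin.cons k g : Fin (m+1) → ι) with hM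
  let c : Fin (m+1) → K := Fin.cons 0 (fun i => A (f i) k / A k k)
  let B : Matrix (Fin (m+1)) (Fin (m+1)) K := fun i j => M i j - c i * M 0 j
  have h1 : M.det = B.det := by
    apply Matrix.det_eq_of_forall_row_eq_smul_add_const c 0 (by simp [c])
    intro i j
    simp only [B, c]
    simp
  rw [h1, Matrix.det_succ_column_zero, Finset.sum_eq_single 0]
  · have h2 : B.submatrix (Fin.succAbove 0) Fin.succ = (piv A k).submatrix f g := by
      ext i j
      change M (Fin.succAbove 0 i) j.succ - c (Fin.succAbove 0 i) * M 0 j.succ = A (f i) (g j) - A (f i) k * A k (g j) / A k k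
      rw [Fin.zero_succAbove]
      simp only [c, M, Matrix.submatrix_apply, Fin.cons_succ, Fin.cons_zero]
      ring
    rw [h2]
    simp [B, c, M]
  · intro i _ hi
    obtain ⟨i', rfl⟩ := Fin.exists_succ_eq.mpr hi
    have : B i'.succ 0 = 0 := by
      simp only [B, c, M, Matrix.submatrix_apply, Fin.cons_succ, Fin.cons_zero]
      field_simp
      simp
    rw [this]; simp
  · simp

/-- successive elimination along a list of pivots -/
def pivL (A : Matrix ι ι K) : List ι → Matrix ι ι K
  | [] => A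
  | k :: L => pivL (piv A k) L

/-- all pivots met along the list are nonzero -/
def PNZ (A : Matrix ι ι K) : List ι → Prop
  | [] => True
  | k :: L => A k k ≠ 0 ∧ PNZ (piv A k) L

/-- product of the pivots met along the list -/
def pprod (A : Matrix ι ι K) : List ι → K
  | [] => 1
  | k :: L => A k k * pprod (piv A k) L

theorem det_list (m : ℕ) : ∀ (A : Matrix ι ι K) (h : Fin m → ι), PNZ A (List.ofFn h) →
    (A.submatrix h h).det = pprod A (List.ofFn h) := by
  induction m with
  | zero => intro A h _; simp [pprod]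
  | succ m ih =>
    intro A h hp
    rw [List.ofFn_succ] at hp ⊢
    obtain ⟨h0, h1⟩ := hp
    have e : h = (Fin.cons (h 0) (fun i => h i.succ) : Fin (m+1) → ι) := by
      ext i; refine Fin.cases ?_ ?_ i <;> simp
    have := det_piv A (h 0) h0 (fun i => h i.succ) (fun i => h i.succ)
    rw [← e] at this
    rw [this, ih _ _ h1]
    rfl

theorem det_list_snoc (m : ℕ) : ∀ (A : Matrix ι ι K) (h : Fin m → ι) (i j : ι), PNZ A (List.ofFn h) →
    (A.submatrix (Fin.snoc h i : Fin (m+1) → ι) (Fin.snoc h j : Fin (m+1) → ι)).det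
      = pprod A (List.ofFn h) * pivL A (List.ofFn h) i j := by
  induction m with
  | zero => intro A h i j _; simp [pprod, pivL]; rfl
  | succ m ih =>
    intro A h i j hp
    rw [List.ofFn_succ] at hp ⊢
    obtain ⟨h0, h1⟩ := hp
    have e : ∀ a : ι, (Fin.snoc h a : Fin (m+2) → ι) = (Fin.cons (h 0) (Fin.snoc (fun i => h i.succ) a : Fin (m+1) → ι) : Fin (m+2) → ι) := by
      intro a
      rw [Fin.cons_snoc_eq_snoc_cons]
      congr 1
      ext i; refine Fin.cases ?_ ?_ i <;> simp
    rw [e i, e j, det_piv A (h 0) h0, ih _ _ _ _ h1]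
    simp only [pprod, pivL]
    ring

theorem pivL_append (L₁ : List ι) : ∀ (A : Matrix ι ι K) (L₂ : List ι), pivL A (L₁ ++ L₂) = pivL (pivL A L₁) L₂ := by
  induction L₁ with
  | nil => intro A L₂; rfl
  | cons k L ih => intro A L₂; simp only [List.cons_append, pivL]; exact ih _ _

theorem PNZ_append (L₁ : List ι) : ∀ (A : Matrix ι ι K) (L₂ : List ι), PNZ A (L₁ ++ L₂) ↔ PNZ A L₁ ∧ PNZ (pivL A L₁) L₂ := by
  induction L₁ with
  | nil => intro A L₂; simp [PNZ, pivL]
  | cons k L ih => intro A L₂; simp only [List.cons_append, pivL, PNZ, ih]; tauto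

end Pivot

section Perm
variable {ι : Type*} 

theorem exists_perm_of_range_eq {k : ℕ} {f g : Fin k → ι} (hf : Function.Injective f) (hg : Function.Injective g)
    (h : Set.range f = Set.range g) : ∃ σ : Equiv.Perm (Fin k), g = f ∘ σ := by
  let e1 := Equiv.ofInjective f hf
  let e2 := Equiv.ofInjective g hg
  refine ⟨(e2.trans (Equiv.setCongr h.symm)).trans e1.symm, ?_⟩
  ext x
  simp only [Function.comp_apply, Equiv.trans_apply]
  have := Equiv.apply_ofInjective_symm hf ((Equiv.setCongr h.symm) (e2 x))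
  rw [this]
  simp [e2]

variable {R : Type*} [CommRing R]

theorem det_mul_det_perm {k : ℕ} (M M' : Matrix (Fin k) (Fin k) R) (σ τ : Equiv.Perm (Fin k)) :
    (M.submatrix σ τ).det * (M'.submatrix τ σ).det = M.det * M'.det := by
  have e1 : M.submatrix σ τ = (M.submatrix σ id).submatrix id τ := by simp
  have e2 : M'.submatrix τ σ = (M'.submatrix τ id).submatrix id σ := by simp
  rw [e1, e2, Matrix.det_permute', Matrix.det_permute', Matrix.det_permute, Matrix.det_permute]
  have h1 : ((Equiv.Perm.sign σ : ℤˣ) : ℤ) * ((Equiv.Perm.sign σ : ℤˣ) : ℤ) = 1 := by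
    rw [← Units.val_mul, Int.units_mul_self]; rfl
  have h2 : ((Equiv.Perm.sign τ : ℤˣ) : ℤ) * ((Equiv.Perm.sign τ : ℤˣ) : ℤ) = 1 := by
    rw [← Units.val_mul, Int.units_mul_self]; rfl
  have h1' : (((Equiv.Perm.sign σ : ℤˣ) : ℤ) : R) * (((Equiv.Perm.sign σ : ℤˣ) : ℤ) : R) = 1 := by
    exact_mod_cast congrArg (Int.cast : ℤ → R) h1
  have h2' : (((Equiv.Perm.sign τ : ℤˣ) : ℤ) : R) * (((Equiv.Perm.sign τ : ℤˣ) : ℤ) : R) = 1 := by
    exact_mod_cast congrArg (Int.cast : ℤ → R) h2
  calc _ = ((((Equiv.Perm.sign σ : ℤˣ) : ℤ) : R) * (((Equiv.Perm.sign σ : ℤˣ) : ℤ) : R)) *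
            ((((Equiv.Perm.sign τ : ℤˣ) : ℤ) : R) * (((Equiv.Perm.sign τ : ℤˣ) : ℤ) : R)) * (M.det * M'.det) := by ring
    _ = _ := by rw [h1', h2']; ring

end Perm

section Transfer
variable {ι : Type*} [DecidableEq ι]

/-- all pivots met along the list are positive -/
def PP (A : Matrix ι ι ℝ) : List ι → Prop
  | [] => True
  | k :: L => 0 < A k k ∧ PP (piv A k) L

omit [DecidableEq ι] in
theorem PP.pnz : ∀ (L : List ι) (A : Matrix ι ι ℝ), PP A L → PNZ A L
  | [], _, _ => trivial
  | _ :: L, _, h => ⟨h.1.ne', PP.pnz L _ h.2⟩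

omit [DecidableEq ι] in
theorem PP.pprod_pos : ∀ (L : List ι) (A : Matrix ι ι ℝ), PP A L → 0 < pprod A L
  | [], _, _ => by simp [pprod]
  | _ :: L, _, h => mul_pos h.1 (PP.pprod_pos L _ h.2)

omit [DecidableEq ι] in
theorem PP_append (L₁ : List ι) : ∀ (A : Matrix ι ι ℝ) (L₂ : List ι), PP A (L₁ ++ L₂) ↔ PP A L₁ ∧ PP (pivL A L₁) L₂ := by
  induction L₁ with
  | nil => intro A L₂; simp [PP, pivL]
  | cons k L ih => intro A L₂; simp only [List.cons_append, pivL, PP, ih]; tauto

/-- every finite set of indices can be enumerated so that elimination has positive pivots and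
all remaining off-diagonal pairs have positive product -/
def Elim (A : Matrix ι ι ℝ) : Prop :=
  ∀ G : Finset ι, ∃ L : List ι, L.Nodup ∧ L.toFinset = G ∧ PP A L ∧
    ∀ i j, i ∉ G → j ∉ G → i ≠ j → 0 < pivL A L i j * pivL A L j i

theorem range_get (L : List ι) : Set.range L.get = (L.toFinset : Set ι) := by
  ext x; simp [List.mem_iff_get]

theorem principal_pos {A : Matrix ι ι ℝ} (hA : Elim A) {k : ℕ} (f : Fin k → ι) (hf : Function.Injective f) :
    0 < (A.submatrix f f).det := by
  obtain ⟨L, hnd, hLG, hpp, -⟩ := hA (Finset.univ.image f)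
  have hlen : L.length = k := by
    rw [← List.toFinset_card_of_nodup hnd, hLG, Finset.card_image_of_injective _ hf]; simp
  subst hlen
  have hr : Set.range f = Set.range L.get := by
    rw [range_get, hLG]; simp
  obtain ⟨σ, hσ⟩ := exists_perm_of_range_eq hf (List.nodup_iff_injective_get.mp hnd) hr
  have h1 : (A.submatrix L.get L.get).det = (A.submatrix f f).det := by
    rw [hσ]
    exact Matrix.det_submatrix_equiv_self σ (A.submatrix f f)
  have h2 := det_list L.length A L.get (by rw [List.ofFn_get]; exact PP.pnz _ _ hpp)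
  rw [← h1, h2, List.ofFn_get]
  exact PP.pprod_pos _ _ hpp

omit [DecidableEq ι] in
theorem range_snoc {m : ℕ} (h : Fin m → ι) (i : ι) :
    Set.range (Fin.snoc h i : Fin (m+1) → ι) = insert i (Set.range h) := by
  ext x
  constructor
  · rintro ⟨t, rfl⟩
    refine Fin.lastCases ?_ (fun t => ?_) t
    · simp
    · simp
  · rintro (rfl | ⟨t, rfl⟩)
    · exact ⟨Fin.last m, by simp⟩
    · exact ⟨t.castSucc, by simp⟩

omit [DecidableEq ι] in
theorem snoc_injective {m : ℕ} {h : Fin m → ι} (hh : Function.Injective h) {i : ι} (hi : i ∉ Set.range h) :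
    Function.Injective (Fin.snoc h i : Fin (m+1) → ι) := by
  intro a b
  refine Fin.lastCases ?_ (fun a => ?_) a <;> refine Fin.lastCases ?_ (fun b => ?_) b
  · intro _; rfl
  · simp only [Fin.snoc_last, Fin.snoc_castSucc]
    intro h'; exact absurd ⟨b, h'.symm⟩ hi
  · simp only [Fin.snoc_last, Fin.snoc_castSucc]
    intro h'; exact absurd ⟨a, h'⟩ hi
  · simp only [Fin.snoc_castSucc]
    intro h'; rw [hh h']

theorem almost_pos {A : Matrix ι ι ℝ} (hA : Elim A) {k : ℕ} (f g : Fin k → ι) (hf : Function.Injective f)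
    (hg : Function.Injective g) (hk : (Finset.univ.image f ∩ Finset.univ.image g).card + 1 = k) :
    0 < (A.submatrix f g).det * (A.submatrix g f).det := by
  set G := Finset.univ.image f ∩ Finset.univ.image g with hG
  obtain ⟨L, hnd, hLG, hpp, hpair⟩ := hA G
  have hlen : L.length = G.card := by
    rw [← List.toFinset_card_of_nodup hnd, hLG]
  rw [← hlen] at hk
  subst hk
  have cf : (Finset.univ.image f).card = L.length + 1 := by
    rw [Finset.card_image_of_injective _ hf]; simp
  have cg : (Finset.univ.image g).card = L.length + 1 := by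
    rw [Finset.card_image_of_injective _ hg]; simp
  have sf : G ⊆ Finset.univ.image f := Finset.inter_subset_left
  have sg : G ⊆ Finset.univ.image g := Finset.inter_subset_right
  obtain ⟨i, hi⟩ := Finset.card_eq_one.mp (show (Finset.univ.image f \ G).card = 1 by
    rw [Finset.card_sdiff_of_subset sf, cf, hlen]; omega)
  obtain ⟨j, hj⟩ := Finset.card_eq_one.mp (show (Finset.univ.image g \ G).card = 1 by
    rw [Finset.card_sdiff_of_subset sg, cg, hlen]; omega)
  have hi' : i ∈ Finset.univ.image f \ G := by rw [hi]; simp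
  have hj' : j ∈ Finset.univ.image g \ G := by rw [hj]; simp
  rw [Finset.mem_sdiff] at hi' hj'
  have hij : i ≠ j := by
    rintro rfl
    exact hi'.2 (Finset.mem_inter.mpr ⟨hi'.1, hj'.1⟩)
  have ef : Finset.univ.image f = insert i G := by
    rw [← Finset.sdiff_union_of_subset sf, hi]; rfl
  have eg : Finset.univ.image g = insert j G := by
    rw [← Finset.sdiff_union_of_subset sg, hj]; rfl
  have rL : Set.range L.get = (G : Set ι) := by rw [range_get, hLG]
  have hLi := List.nodup_iff_injective_get.mp hnd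
  have rf : Set.range f = Set.range (Fin.snoc L.get i : Fin (L.length+1) → ι) := by
    rw [range_snoc, rL]
    have := congrArg (fun s : Finset ι => (s : Set ι)) ef
    simpa using this
  have rg : Set.range g = Set.range (Fin.snoc L.get j : Fin (L.length+1) → ι) := by
    rw [range_snoc, rL]
    have := congrArg (fun s : Finset ι => (s : Set ι)) eg
    simpa using this
  obtain ⟨σ, hσ⟩ := exists_perm_of_range_eq hf (snoc_injective hLi (by rw [rL]; exact_mod_cast hi'.2)) rf
  obtain ⟨τ, hτ⟩ := exists_perm_of_range_eq hg (snoc_injective hLi (by rw [rL]; exact_mod_cast hj'.2)) rg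
  have hP : PNZ A (List.ofFn L.get) := by rw [List.ofFn_get]; exact PP.pnz _ _ hpp
  have d1 := det_list_snoc L.length A L.get i j hP
  have d2 := det_list_snoc L.length A L.get j i hP
  rw [hσ, hτ, List.ofFn_get] at d1
  rw [hσ, hτ, List.ofFn_get] at d2
  have key := det_mul_det_perm (A.submatrix f g) (A.submatrix g f) σ τ
  rw [← key]
  have k1 : ((A.submatrix f g).submatrix σ τ).det = pprod A L * pivL A L i j := by
    rw [← d1]; rfl
  have k2 : ((A.submatrix g f).submatrix τ σ).det = pprod A L * pivL A L j i := by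
    rw [← d2]; rfl
  rw [k1, k2]
  have := hpair i j hi'.2 hj'.2 hij
  have hpr := PP.pprod_pos _ _ hpp
  calc (0:ℝ) < (pprod A L * pprod A L) * (pivL A L i j * pivL A L j i) := mul_pos (mul_pos hpr hpr) this
    _ = _ := by ring

end Transfer

section Example

open Sum Filter Topology

/-- indices: `inl k` (a chain of length `N`), and two special indices `inr 0`, `inr 1` -/
abbrev Ix (N : ℕ) := Fin N ⊕ Fin 2

/-- the matrix of the example, depending on the small parameters `ε`, `η` -/
def amat (N : ℕ) (s c d ε η : ℝ) : Matrix (Ix N) (Ix N) ℝ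
  | inl i, inl j => if (i:ℕ) = j then 1 else if (i:ℕ) = j + 1 then -1 else -η
  | inl i, inr a => if (i:ℕ) = 0 then (if a = 0 then -1 else -c) else -η
  | inr a, inl j => if (j:ℕ) + 1 = N then (if a = 0 then -c else -1) else -η
  | inr a, inr b => if a = 0 then (if b = 0 then s else d) else (if b = 0 then ε else s)

variable {N : ℕ}

/-- sign conditions kept by elimination of chain indices; `P` is the set of eliminated ones -/
structure SC (c d ε : ℝ) (B : Matrix (Ix N) (Ix N) ℝ) (P : Set (Fin N)) : Prop where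
  mm : ∀ i j, i ∉ P → j ∉ P → i ≠ j → B (inl i) (inl j) < 0
  mr : ∀ i a, i ∉ P → B (inl i) (inr a) < 0
  rm : ∀ a j, j ∉ P → B (inr a) (inl j) < 0
  pq : B (inr 0) (inr 1) ≤ d
  qp : B (inr 1) (inr 0) ≤ ε
  r1 : ∀ j, j ∉ P → c * B (inr 0) (inl j) < d * B (inr 1) (inl j)
  r2 : ∀ j, j ∉ P → c * B (inl j) (inr 1) < d * B (inl j) (inr 0)
  r3 : ∀ j, j ∉ P → c * B (inl j) (inr 0) < ε * B (inl j) (inr 1)
  r4 : ∀ j, j ∉ P → c * B (inr 1) (inl j) < ε * B (inr 0) (inl j)

theorem neg_step {x y z w : ℝ} (hx : x < 0) (hy : y < 0) (hz : z < 0) (hw : 0 < w) : x - y * z / w < 0 := by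
  have : 0 < y * z / w := div_pos (mul_pos_of_neg_of_neg hy hz) hw
  linarith

theorem comb_step {α β x x' y y' z w : ℝ} (h : α * x < β * x') (h' : α * y < β * y') (hz : z < 0) (hw : 0 < w) :
    α * (x - y * z / w) < β * (x' - y' * z / w) := by
  have : 0 < (α * y - β * y') * z / w := div_pos (mul_pos_of_neg_of_neg (by linarith) hz) hw
  have e : α * (x - y * z / w) - β * (x' - y' * z / w) = (α * x - β * x') - (α * y - β * y') * z / w := by ring
  linarith

theorem SC.step {c d ε : ℝ} {B : Matrix (Ix N) (Ix N) ℝ} {P : Set (Fin N)} (h : SC c d ε B P) {k : Fin N}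
    (hk : k ∉ P) (hB : 0 < B (inl k) (inl k)) : SC c d ε (piv B (inl k)) (insert k P) := by
  have key : ∀ i, i ∉ insert k P → i ≠ k ∧ i ∉ P := by
    intro i hi
    rw [Set.mem_insert_iff, not_or] at hi
    exact hi
  constructor
  · intro i j hi hj hij
    exact neg_step (h.mm i j (key i hi).2 (key j hj).2 hij) (h.mm i k (key i hi).2 hk (key i hi).1)
      (h.mm k j hk (key j hj).2 (key j hj).1.symm) hB
  · intro i a hi
    exact neg_step (h.mr i a (key i hi).2) (h.mm i k (key i hi).2 hk (key i hi).1) (h.mr k a hk) hB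
  · intro a j hj
    exact neg_step (h.rm a j (key j hj).2) (h.rm a k hk) (h.mm k j hk (key j hj).2 (key j hj).1.symm) hB
  · have : 0 < B (inr 0) (inl k) * B (inl k) (inr 1) / B (inl k) (inl k) :=
      div_pos (mul_pos_of_neg_of_neg (h.rm 0 k hk) (h.mr k 1 hk)) hB
    have h2 := h.pq
    change B (inr 0) (inr 1) - B (inr 0) (inl k) * B (inl k) (inr 1) / B (inl k) (inl k) ≤ d
    linarith
  · have : 0 < B (inr 1) (inl k) * B (inl k) (inr 0) / B (inl k) (inl k) :=
      div_pos (mul_pos_of_neg_of_neg (h.rm 1 k hk) (h.mr k 0 hk)) hB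
    have h2 := h.qp
    change B (inr 1) (inr 0) - B (inr 1) (inl k) * B (inl k) (inr 0) / B (inl k) (inl k) ≤ ε
    linarith
  · intro j hj
    exact comb_step (h.r1 j (key j hj).2) (h.r1 k hk) (h.mm k j hk (key j hj).2 (key j hj).1.symm) hB
  · intro j hj
    have := comb_step (h.r2 j (key j hj).2) (h.r2 k hk) (h.mm j k (key j hj).2 hk (key j hj).1) hB
    change c * (B (inl j) (inr 1) - B (inl j) (inl k) * B (inl k) (inr 1) / B (inl k) (inl k)) <
      d * (B (inl j) (inr 0) - B (inl j) (inl k) * B (inl k) (inr 0) / B (inl k) (inl k))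
    rw [mul_comm (B (inl j) (inl k)) (B (inl k) (inr 1)), mul_comm (B (inl j) (inl k)) (B (inl k) (inr 0))]
    exact this
  · intro j hj
    have := comb_step (h.r3 j (key j hj).2) (h.r3 k hk) (h.mm j k (key j hj).2 hk (key j hj).1) hB
    change c * (B (inl j) (inr 0) - B (inl j) (inl k) * B (inl k) (inr 0) / B (inl k) (inl k)) <
      ε * (B (inl j) (inr 1) - B (inl j) (inl k) * B (inl k) (inr 1) / B (inl k) (inl k))
    rw [mul_comm (B (inl j) (inl k)) (B (inl k) (inr 1)), mul_comm (B (inl j) (inl k)) (B (inl k) (inr 0))]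
    exact this
  · intro j hj
    exact comb_step (h.r4 j (key j hj).2) (h.r4 k hk) (h.mm k j hk (key j hj).2 (key j hj).1.symm) hB

theorem SC.init {s c d ε η : ℝ} (hη : 0 < η) (hd : 0 < d) (hdc : d < c * c) (hc1 : c < 1)
    (hε : 0 < ε) (hεc : ε < c) (N : ℕ) : SC c d ε (amat N s c d ε η) ∅ := by
  have hc : 0 < c := hε.trans hεc
  have hdc' : d < c := by nlinarith
  have hε1 : ε * c < c := by nlinarith
  constructor
  · intro i j _ _ hij
    have hne : (i:ℕ) ≠ j := fun h => hij (Fin.ext h)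
    simp only [amat, if_neg hne]
    split_ifs <;> linarith
  · intro i a _
    simp only [amat]
    split_ifs <;> linarith
  · intro a j _
    simp only [amat]
    split_ifs <;> linarith
  · simp [amat]
  · simp [amat]
  · intro j _
    simp only [amat]
    split_ifs <;> nlinarith
  · intro j _
    simp only [amat]
    split_ifs <;> nlinarith
  · intro j _
    simp only [amat]
    split_ifs <;> nlinarith
  · intro j _
    simp only [amat]
    split_ifs <;> nlinarith


/-- conditions on the diagonal and on the special block; `Γ` lists the eliminated chain indices -/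
structure EC (c : ℝ) (B : Matrix (Ix N) (Ix N) ℝ) (Γ : List (Fin N)) : Prop where
  diag : ∀ i, i ∉ Γ → 0 < B (inl i) (inl i)
  low : Γ.length < N → c < B (inr 0) (inr 0) ∧ c < B (inr 1) (inr 1) ∧ 0 < B (inr 0) (inr 1) ∧
    0 < B (inr 1) (inr 0) ∧ 0 < B (inr 0) (inr 0) * B (inr 1) (inr 1) - B (inr 0) (inr 1) * B (inr 1) (inr 0)
  full : Γ = List.finRange N → 0 < B (inr 0) (inr 0) ∧ 0 < B (inr 1) (inr 1) ∧ B (inr 0) (inr 1) < 0 ∧
    B (inr 1) (inr 0) < 0 ∧ 0 < B (inr 0) (inr 0) * B (inr 1) (inr 1) - B (inr 0) (inr 1) * B (inr 1) (inr 0)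

theorem SC_PP {c d ε : ℝ} {A : Matrix (Ix N) (Ix N) ℝ} (h0 : SC c d ε A ∅)
    (hE : ∀ Γ : List (Fin N), Γ.Nodup → EC c (pivL A (Γ.map inl)) Γ) :
    ∀ Γ : List (Fin N), Γ.Nodup → SC c d ε (pivL A (Γ.map inl)) {x | x ∈ Γ} ∧ PP A (Γ.map inl) := by
  intro Γ
  induction Γ using List.reverseRecOn with
  | nil => intro _; exact ⟨by simpa [pivL] using h0, trivial⟩
  | append_singleton Γ k ih =>
    intro hnd
    have hnd' : Γ.Nodup := (List.nodup_append.mp hnd).1
    have hk : k ∉ Γ := by
      intro hk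
      exact (List.nodup_append.mp hnd).2.2 k hk k (by simp) rfl
    obtain ⟨i1, i2⟩ := ih hnd'
    have hpos := (hE Γ hnd').diag k hk
    have hs := i1.step (k := k) hk hpos
    rw [List.map_append, pivL_append, PP_append]
    refine ⟨?_, i2, ?_⟩
    · have : {x | x ∈ Γ ++ [k]} = insert k {x | x ∈ Γ} := by
        ext x; simp [or_comm]
      rw [this]
      exact hs
    · exact ⟨hpos, trivial⟩

theorem abs_step {x y z w c d : ℝ} (hx : x < 0) (hy : y < 0) (h : c * x < d * y) (hz : z ≤ d) (hw : c < w)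
    (hc : 0 < c) : x - z * y / w < 0 := by
  have hw0 : 0 < w := hc.trans hw
  rw [sub_neg, lt_div_iff₀ hw0]
  nlinarith

theorem abs_step' {x y z w c d : ℝ} (hx : x < 0) (hy : y < 0) (h : c * x < d * y) (hz : z ≤ d) (hw : c < w)
    (hc : 0 < c) : x - y * z / w < 0 := by
  rw [mul_comm y z]; exact abs_step hx hy h hz hw hc

theorem final_phase {c d ε : ℝ} {B : Matrix (Ix N) (Ix N) ℝ} {Γ : List (Fin N)} (hc : 0 < c)
    (hS : SC c d ε B {x | x ∈ Γ}) (hE : EC c B Γ) (hΓ : Γ.length < N ∨ Γ = List.finRange N)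
    (T : List (Fin 2)) (hT : T = [] ∨ T = [0] ∨ T = [1] ∨ T = [0, 1]) :
    PP B (T.map inr) ∧ ∀ i j : Ix N, i ∉ Γ.map inl ++ T.map inr → j ∉ Γ.map inl ++ T.map inr → i ≠ j →
      0 < pivL B (T.map inr) i j * pivL B (T.map inr) j i := by
  have hlt : ∀ i : Fin N, i ∉ Γ → Γ.length < N := by
    intro i hi
    rcases hΓ with h | h
    · exact h
    · exact absurd (by rw [h]; exact List.mem_finRange i) hi
  have hpp : 0 < B (inr 0) (inr 0) := by
    rcases hΓ with h | h
    · exact hc.trans (hE.low h).1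
    · exact (hE.full h).1
  have hqq : 0 < B (inr 1) (inr 1) := by
    rcases hΓ with h | h
    · exact hc.trans (hE.low h).2.1
    · exact (hE.full h).2.1
  have hpq : 0 < B (inr 0) (inr 1) * B (inr 1) (inr 0) := by
    rcases hΓ with h | h
    · exact mul_pos (hE.low h).2.2.1 (hE.low h).2.2.2.1
    · exact mul_pos_of_neg_of_neg (hE.full h).2.2.1 (hE.full h).2.2.2.1
  have hdet : 0 < B (inr 0) (inr 0) * B (inr 1) (inr 1) - B (inr 0) (inr 1) * B (inr 1) (inr 0) := by
    rcases hΓ with h | h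
    · exact (hE.low h).2.2.2.2
    · exact (hE.full h).2.2.2.2
  -- entries after eliminating the first special index
  have p_mm : ∀ i j, i ∉ Γ → j ∉ Γ → i ≠ j → piv B (inr 0) (inl i) (inl j) < 0 := fun i j hi hj hij =>
    neg_step (hS.mm i j hi hj hij) (hS.mr i 0 hi) (hS.rm 0 j hj) hpp
  have p_mq : ∀ i, i ∉ Γ → piv B (inr 0) (inl i) (inr 1) < 0 := fun i hi =>
    abs_step' (hS.mr i 1 hi) (hS.mr i 0 hi) (hS.r2 i hi) hS.pq (hE.low (hlt i hi)).1 hc
  have p_qm : ∀ i, i ∉ Γ → piv B (inr 0) (inr 1) (inl i) < 0 := fun i hi =>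
    abs_step (hS.rm 1 i hi) (hS.rm 0 i hi) (hS.r4 i hi) hS.qp (hE.low (hlt i hi)).1 hc
  have p_qq : 0 < piv B (inr 0) (inr 1) (inr 1) := by
    change 0 < B (inr 1) (inr 1) - B (inr 1) (inr 0) * B (inr 0) (inr 1) / B (inr 0) (inr 0)
    rw [sub_pos, div_lt_iff₀ hpp]
    nlinarith
  -- entries after eliminating the second special index
  have q_mm : ∀ i j, i ∉ Γ → j ∉ Γ → i ≠ j → piv B (inr 1) (inl i) (inl j) < 0 := fun i j hi hj hij =>
    neg_step (hS.mm i j hi hj hij) (hS.mr i 1 hi) (hS.rm 1 j hj) hqq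
  have q_mp : ∀ i, i ∉ Γ → piv B (inr 1) (inl i) (inr 0) < 0 := fun i hi =>
    abs_step' (hS.mr i 0 hi) (hS.mr i 1 hi) (hS.r3 i hi) hS.qp (hE.low (hlt i hi)).2.1 hc
  have q_pm : ∀ i, i ∉ Γ → piv B (inr 1) (inr 0) (inl i) < 0 := fun i hi =>
    abs_step (hS.rm 0 i hi) (hS.rm 1 i hi) (hS.r1 i hi) hS.pq (hE.low (hlt i hi)).2.1 hc
  have f2 : ∀ a : Fin 2, a = 0 ∨ a = 1 := by decide
  rcases hT with rfl | rfl | rfl | rfl
  · refine ⟨trivial, ?_⟩
    intro i j hi hj hij
    simp only [List.map_nil, List.append_nil, List.mem_map, not_exists, not_and] at hi hj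
    simp only [List.map_nil, pivL]
    rcases i with i | i <;> rcases j with j | j
    · have hi' : i ∉ Γ := fun h => hi i h rfl
      have hj' : j ∉ Γ := fun h => hj j h rfl
      have hij' : i ≠ j := fun h => hij (by rw [h])
      exact mul_pos_of_neg_of_neg (hS.mm i j hi' hj' hij') (hS.mm j i hj' hi' hij'.symm)
    · have hi' : i ∉ Γ := fun h => hi i h rfl
      exact mul_pos_of_neg_of_neg (hS.mr i j hi') (hS.rm j i hi')
    · have hj' : j ∉ Γ := fun h => hj j h rfl
      exact mul_pos_of_neg_of_neg (hS.rm i j hj') (hS.mr j i hj')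
    · rcases f2 i with rfl | rfl <;> rcases f2 j with rfl | rfl
      · exact absurd rfl hij
      · exact hpq
      · rw [mul_comm]; exact hpq
      · exact absurd rfl hij
  · refine ⟨⟨hpp, trivial⟩, ?_⟩
    intro i j hi hj hij
    simp only [List.map_cons, List.map_nil, List.mem_append, List.mem_map, List.mem_singleton, not_or, not_exists,
      not_and] at hi hj
    simp only [List.map_cons, List.map_nil, pivL]
    rcases i with i | i <;> rcases j with j | j
    · have hi' : i ∉ Γ := fun h => hi.1 i h rfl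
      have hj' : j ∉ Γ := fun h => hj.1 j h rfl
      have hij' : i ≠ j := fun h => hij (by rw [h])
      exact mul_pos_of_neg_of_neg (p_mm i j hi' hj' hij') (p_mm j i hj' hi' hij'.symm)
    · have hi' : i ∉ Γ := fun h => hi.1 i h rfl
      rcases f2 j with rfl | rfl
      · exact absurd rfl hj.2
      · exact mul_pos_of_neg_of_neg (p_mq i hi') (p_qm i hi')
    · have hj' : j ∉ Γ := fun h => hj.1 j h rfl
      rcases f2 i with rfl | rfl
      · exact absurd rfl hi.2
      · exact mul_pos_of_neg_of_neg (p_qm j hj') (p_mq j hj')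
    · rcases f2 i with rfl | rfl
      · exact absurd rfl hi.2
      · rcases f2 j with rfl | rfl
        · exact absurd rfl hj.2
        · exact absurd rfl hij
  · refine ⟨⟨hqq, trivial⟩, ?_⟩
    intro i j hi hj hij
    simp only [List.map_cons, List.map_nil, List.mem_append, List.mem_map, List.mem_singleton, not_or, not_exists,
      not_and] at hi hj
    simp only [List.map_cons, List.map_nil, pivL]
    rcases i with i | i <;> rcases j with j | j
    · have hi' : i ∉ Γ := fun h => hi.1 i h rfl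
      have hj' : j ∉ Γ := fun h => hj.1 j h rfl
      have hij' : i ≠ j := fun h => hij (by rw [h])
      exact mul_pos_of_neg_of_neg (q_mm i j hi' hj' hij') (q_mm j i hj' hi' hij'.symm)
    · have hi' : i ∉ Γ := fun h => hi.1 i h rfl
      rcases f2 j with rfl | rfl
      · exact mul_pos_of_neg_of_neg (q_mp i hi') (q_pm i hi')
      · exact absurd rfl hj.2
    · have hj' : j ∉ Γ := fun h => hj.1 j h rfl
      rcases f2 i with rfl | rfl
      · exact mul_pos_of_neg_of_neg (q_pm j hj') (q_mp j hj')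
      · exact absurd rfl hi.2
    · rcases f2 i with rfl | rfl
      · rcases f2 j with rfl | rfl
        · exact absurd rfl hij
        · exact absurd rfl hj.2
      · exact absurd rfl hi.2
  · refine ⟨⟨hpp, p_qq, trivial⟩, ?_⟩
    intro i j hi hj hij
    simp only [List.map_cons, List.map_nil, List.mem_append, List.mem_map, List.mem_cons, List.not_mem_nil, or_false,
      not_or, not_exists, not_and] at hi hj
    simp only [List.map_cons, List.map_nil, pivL]
    rcases i with i | i <;> rcases j with j | j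
    · have hi' : i ∉ Γ := fun h => hi.1 i h rfl
      have hj' : j ∉ Γ := fun h => hj.1 j h rfl
      have hij' : i ≠ j := fun h => hij (by rw [h])
      exact mul_pos_of_neg_of_neg
        (neg_step (p_mm i j hi' hj' hij') (p_mq i hi') (p_qm j hj') p_qq)
        (neg_step (p_mm j i hj' hi' hij'.symm) (p_mq j hj') (p_qm i hi') p_qq)
    · rcases f2 j with rfl | rfl
      · exact absurd rfl hj.2.1
      · exact absurd rfl hj.2.2
    · rcases f2 i with rfl | rfl
      · exact absurd rfl hi.2.1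
      · exact absurd rfl hi.2.2
    · rcases f2 i with rfl | rfl
      · exact absurd rfl hi.2.1
      · exact absurd rfl hi.2.2

theorem elim_of_EC {c d ε : ℝ} {A : Matrix (Ix N) (Ix N) ℝ} (hc : 0 < c) (h0 : SC c d ε A ∅)
    (hE : ∀ Γ : List (Fin N), Γ.Nodup → EC c (pivL A (Γ.map inl)) Γ) : Elim A := by
  intro G
  set Γ := (List.finRange N).filter (fun k => inl k ∈ G) with hΓ
  set T := ([0, 1] : List (Fin 2)).filter (fun a => inr a ∈ G) with hT
  have hnd : Γ.Nodup := (List.nodup_finRange N).filter _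
  have hTnd : T.Nodup := List.Nodup.filter _ (by decide)
  have hTc : T = [] ∨ T = [0] ∨ T = [1] ∨ T = [0, 1] := by
    by_cases h0 : (inr 0 : Ix N) ∈ G <;> by_cases h1 : (inr 1 : Ix N) ∈ G <;> simp [hT, h0, h1, List.filter]
  have hΓc : Γ.length < N ∨ Γ = List.finRange N := by
    by_cases h : ∀ k : Fin N, inl k ∈ G
    · right
      rw [hΓ, List.filter_eq_self]
      intro k _; simpa using h k
    · left
      push Not at h
      obtain ⟨k, hk⟩ := h
      have h1 : Γ.length ≤ (List.finRange N).length := List.length_filter_le _ _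
      rw [List.length_finRange] at h1
      refine lt_of_le_of_ne h1 ?_
      intro h2
      have h3 : Γ = List.finRange N := by
        apply List.filter_sublist.eq_of_length
        rw [List.length_finRange]; exact h2
      have : k ∈ Γ := by rw [h3]; exact List.mem_finRange k
      rw [hΓ, List.mem_filter] at this
      exact hk (by simpa using this.2)
  obtain ⟨hS, hP⟩ := SC_PP h0 hE Γ hnd
  obtain ⟨f1, f2⟩ := final_phase hc hS (hE Γ hnd) hΓc T hTc
  have hmem : ∀ x : Ix N, x ∈ Γ.map inl ++ T.map inr ↔ x ∈ G := by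
    intro x
    rcases x with x | x
    · simp [hΓ]
    · have : x ∈ ([0, 1] : List (Fin 2)) := by revert x; decide
      simp only [List.mem_append, List.mem_map, reduceCtorEq, and_false, exists_false, false_or, inr.injEq,
        exists_eq_right, hT, List.mem_filter, decide_eq_true_eq]
      tauto
  refine ⟨Γ.map inl ++ T.map inr, ?_, ?_, ?_, ?_⟩
  · rw [List.nodup_append]
    refine ⟨hnd.map Sum.inl_injective, hTnd.map Sum.inr_injective, ?_⟩
    intro a ha b hb hab
    simp only [List.mem_map] at ha hb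
    obtain ⟨x, _, rfl⟩ := ha
    obtain ⟨y, _, rfl⟩ := hb
    exact absurd hab (by simp)
  · ext x; rw [List.mem_toFinset]; exact hmem x
  · rw [PP_append]; exact ⟨hP, f1⟩
  · intro i j hi hj hij
    rw [pivL_append]
    exact f2 i j (by rw [hmem]; exact hi) (by rw [hmem]; exact hj) hij


/-- chain part triangular with unit diagonal -/
structure TZ (B : Matrix (Ix N) (Ix N) ℝ) (P : Set (Fin N)) : Prop where
  diag : ∀ i, i ∉ P → B (inl i) (inl i) = 1
  tri : ∀ i j, i ∉ P → j ∉ P → i < j → B (inl i) (inl j) = 0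

theorem TZ.step {B : Matrix (Ix N) (Ix N) ℝ} {P : Set (Fin N)} (h : TZ B P) {k : Fin N} (hk : k ∉ P) :
    TZ (piv B (inl k)) (insert k P) := by
  have key : ∀ i, i ∉ insert k P → i ≠ k ∧ i ∉ P := by
    intro i hi
    rw [Set.mem_insert_iff, not_or] at hi
    exact hi
  constructor
  · intro i hi
    obtain ⟨h1, h2⟩ := key i hi
    change B (inl i) (inl i) - B (inl i) (inl k) * B (inl k) (inl i) / B (inl k) (inl k) = 1
    rcases lt_or_gt_of_ne h1 with h3 | h3
    · rw [h.diag i h2, h.tri i k h2 hk h3]; simp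
    · rw [h.diag i h2, h.tri k i hk h2 h3]; simp
  · intro i j hi hj hij
    obtain ⟨h1, h2⟩ := key i hi
    obtain ⟨h3, h4⟩ := key j hj
    change B (inl i) (inl j) - B (inl i) (inl k) * B (inl k) (inl j) / B (inl k) (inl k) = 0
    rw [h.tri i j h2 h4 hij]
    rcases lt_or_gt_of_ne h1 with h5 | h5
    · rw [h.tri i k h2 hk h5]; simp
    · rw [h.tri k j hk h4 (h5.trans hij)]; simp

theorem PNZ_zero {A : Matrix (Ix N) (Ix N) ℝ} (h0 : TZ A ∅) :
    ∀ Γ : List (Fin N), Γ.Nodup → TZ (pivL A (Γ.map inl)) {x | x ∈ Γ} ∧ PNZ A (Γ.map inl) := by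
  intro Γ
  induction Γ using List.reverseRecOn with
  | nil => intro _; exact ⟨by simpa [pivL] using h0, trivial⟩
  | append_singleton Γ k ih =>
    intro hnd
    have hnd' : Γ.Nodup := (List.nodup_append.mp hnd).1
    have hk : k ∉ Γ := by
      intro hk
      exact (List.nodup_append.mp hnd).2.2 k hk k (by simp) rfl
    obtain ⟨i1, i2⟩ := ih hnd'
    have hs := i1.step (k := k) hk
    rw [List.map_append, pivL_append, PNZ_append]
    refine ⟨?_, i2, ?_⟩
    · have : {x | x ∈ Γ ++ [k]} = insert k {x | x ∈ Γ} := by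
        ext x; simp [or_comm]
      rw [this]
      exact hs
    · refine ⟨?_, trivial⟩
      rw [i1.diag k hk]; exact one_ne_zero

/-- zero pattern when the chain index `m` is never eliminated -/
structure VZ (K : Fin 2 → Fin 2 → ℝ) (m : Fin N) (B : Matrix (Ix N) (Ix N) ℝ) (P : Set (Fin N)) : Prop where
  rl : ∀ a k, k ∉ P → k < m → B (inr a) (inl k) = 0
  hr : ∀ k a, k ∉ P → m < k → B (inl k) (inr a) = 0
  hl : ∀ k l, k ∉ P → l ∉ P → m < k → l < m → B (inl k) (inl l) = 0
  blk : ∀ a b, B (inr a) (inr b) = K a b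

theorem VZ.step {K : Fin 2 → Fin 2 → ℝ} {m : Fin N} {B : Matrix (Ix N) (Ix N) ℝ} {P : Set (Fin N)}
    (h : VZ K m B P) {k : Fin N} (hk : k ∉ P) (hkm : k ≠ m) : VZ K m (piv B (inl k)) (insert k P) := by
  have key : ∀ i, i ∉ insert k P → i ≠ k ∧ i ∉ P := by
    intro i hi
    rw [Set.mem_insert_iff, not_or] at hi
    exact hi
  rcases lt_or_gt_of_ne hkm with h3 | h3
  · constructor
    · intro a i hi him
      change B (inr a) (inl i) - B (inr a) (inl k) * B (inl k) (inl i) / B (inl k) (inl k) = 0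
      rw [h.rl a k hk h3, h.rl a i (key i hi).2 him]; simp
    · intro i a hi him
      change B (inl i) (inr a) - B (inl i) (inl k) * B (inl k) (inr a) / B (inl k) (inl k) = 0
      rw [h.hl i k (key i hi).2 hk him h3, h.hr i a (key i hi).2 him]; simp
    · intro i l hi hl him hlm
      change B (inl i) (inl l) - B (inl i) (inl k) * B (inl k) (inl l) / B (inl k) (inl k) = 0
      rw [h.hl i k (key i hi).2 hk him h3, h.hl i l (key i hi).2 (key l hl).2 him hlm]; simp
    · intro a b
      change B (inr a) (inr b) - B (inr a) (inl k) * B (inl k) (inr b) / B (inl k) (inl k) = K a b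
      rw [h.rl a k hk h3, h.blk]; simp
  · constructor
    · intro a i hi him
      change B (inr a) (inl i) - B (inr a) (inl k) * B (inl k) (inl i) / B (inl k) (inl k) = 0
      rw [h.hl k i hk (key i hi).2 h3 him, h.rl a i (key i hi).2 him]; simp
    · intro i a hi him
      change B (inl i) (inr a) - B (inl i) (inl k) * B (inl k) (inr a) / B (inl k) (inl k) = 0
      rw [h.hr k a hk h3, h.hr i a (key i hi).2 him]; simp
    · intro i l hi hl him hlm
      change B (inl i) (inl l) - B (inl i) (inl k) * B (inl k) (inl l) / B (inl k) (inl k) = 0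
      rw [h.hl k l hk (key l hl).2 h3 hlm, h.hl i l (key i hi).2 (key l hl).2 him hlm]; simp
    · intro a b
      change B (inr a) (inr b) - B (inr a) (inl k) * B (inl k) (inr b) / B (inl k) (inl k) = K a b
      rw [h.hr k b hk h3, h.blk]; simp

theorem VZ_list {K : Fin 2 → Fin 2 → ℝ} {m : Fin N} {A : Matrix (Ix N) (Ix N) ℝ} (h0 : VZ K m A ∅) :
    ∀ Γ : List (Fin N), Γ.Nodup → m ∉ Γ → VZ K m (pivL A (Γ.map inl)) {x | x ∈ Γ} := by
  intro Γ
  induction Γ using List.reverseRecOn with
  | nil => intro _ _; simpa [pivL] using h0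
  | append_singleton Γ k ih =>
    intro hnd hm
    have hnd' : Γ.Nodup := (List.nodup_append.mp hnd).1
    have hk : k ∉ Γ := by
      intro hk
      exact (List.nodup_append.mp hnd).2.2 k hk k (by simp) rfl
    have hm' : m ∉ Γ := fun h => hm (by simp [h])
    have hkm : k ≠ m := fun h => hm (by simp [h])
    have i1 := ih hnd' hm'
    have hs := i1.step (k := k) hk hkm
    rw [List.map_append, pivL_append]
    have : {x | x ∈ Γ ++ [k]} = insert k {x | x ∈ Γ} := by
      ext x; simp [or_comm]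
    rw [this]
    exact hs

/-- exact shape after eliminating the first `t` chain indices in order -/
structure FZ (K : Fin 2 → Fin 2 → ℝ) (u w : Fin 2 → ℝ) (B : Matrix (Ix N) (Ix N) ℝ) (t : ℕ) : Prop where
  mm : ∀ i j : Fin N, t ≤ i → t ≤ j →
    B (inl i) (inl j) = if (i:ℕ) = j then 1 else if (i:ℕ) = j + 1 then -1 else 0
  mr : ∀ (i : Fin N) a, t ≤ i → B (inl i) (inr a) = if (i:ℕ) = t then -(w a) else 0
  rm : ∀ a (j : Fin N), t ≤ j → B (inr a) (inl j) = if (j:ℕ) + 1 = N then -(u a) else 0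
  blk : t < N → ∀ a b, B (inr a) (inr b) = K a b
  blkN : t = N → 0 < N → ∀ a b, B (inr a) (inr b) = K a b - u a * w b

theorem FZ.step {K : Fin 2 → Fin 2 → ℝ} {u w : Fin 2 → ℝ} {B : Matrix (Ix N) (Ix N) ℝ} {t : ℕ}
    (h : FZ K u w B t) (ht : t < N) : FZ K u w (piv B (inl ⟨t, ht⟩)) (t + 1) := by
  have hkk : B (inl ⟨t, ht⟩) (inl ⟨t, ht⟩) = 1 := by
    rw [h.mm _ _ le_rfl le_rfl]; simp
  have hkj : ∀ j : Fin N, t + 1 ≤ j → B (inl ⟨t, ht⟩) (inl j) = 0 := by
    intro j hj
    rw [h.mm _ _ le_rfl (by omega), if_neg (by simp; omega), if_neg (by simp; omega)]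
  constructor
  · intro i j hi hj
    change B (inl i) (inl j) - B (inl i) (inl ⟨t, ht⟩) * B (inl ⟨t, ht⟩) (inl j) / B (inl ⟨t, ht⟩) (inl ⟨t, ht⟩) = _
    rw [hkj j hj, h.mm i j (by omega) (by omega)]; simp
  · intro i a hi
    change B (inl i) (inr a) - B (inl i) (inl ⟨t, ht⟩) * B (inl ⟨t, ht⟩) (inr a) / B (inl ⟨t, ht⟩) (inl ⟨t, ht⟩) = _
    rw [hkk, h.mr i a (by omega), h.mr ⟨t, ht⟩ a le_rfl, h.mm i ⟨t, ht⟩ (by omega) le_rfl]
    rw [if_neg (show ¬ ((i:ℕ) = t) by omega), if_neg (show ¬ ((i:ℕ) = ((⟨t, ht⟩ : Fin N) : ℕ)) by simp; omega)]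
    simp only [if_true]
    split_ifs <;> simp
  · intro a j hj
    change B (inr a) (inl j) - B (inr a) (inl ⟨t, ht⟩) * B (inl ⟨t, ht⟩) (inl j) / B (inl ⟨t, ht⟩) (inl ⟨t, ht⟩) = _
    rw [hkj j hj, h.rm a j (by omega)]; simp
  · intro ht2 a b
    change B (inr a) (inr b) - B (inr a) (inl ⟨t, ht⟩) * B (inl ⟨t, ht⟩) (inr b) / B (inl ⟨t, ht⟩) (inl ⟨t, ht⟩) = _
    rw [h.rm a ⟨t, ht⟩ le_rfl, if_neg (by simp; omega), h.blk ht]; simp
  · intro ht2 _ a b
    change B (inr a) (inr b) - B (inr a) (inl ⟨t, ht⟩) * B (inl ⟨t, ht⟩) (inr b) / B (inl ⟨t, ht⟩) (inl ⟨t, ht⟩) = _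
    rw [hkk, h.rm a ⟨t, ht⟩ le_rfl, if_pos (by simpa using ht2), h.blk ht, h.mr ⟨t, ht⟩ b le_rfl]
    simp

theorem FZ_list {K : Fin 2 → Fin 2 → ℝ} {u w : Fin 2 → ℝ} {A : Matrix (Ix N) (Ix N) ℝ} (h0 : FZ K u w A 0) :
    ∀ t, t ≤ N → FZ K u w (pivL A (((List.finRange N).take t).map inl)) t := by
  intro t
  induction t with
  | zero => intro _; simpa [pivL] using h0
  | succ t ih =>
    intro ht
    have ht' : t < N := by omega
    have e : (List.finRange N).take (t+1) = (List.finRange N).take t ++ [⟨t, ht'⟩] := by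
      rw [List.take_succ_eq_append_getElem (by simpa using ht')]
      simp
    rw [e, List.map_append, pivL_append]
    exact (ih (by omega)).step ht'

theorem pivL_cont {ι : Type*} : ∀ (L : List ι) (A : ℝ → Matrix ι ι ℝ), (∀ i j, ContinuousAt (fun η => A η i j) 0) →
    PNZ (A 0) L → ∀ i j, ContinuousAt (fun η => pivL (A η) L i j) 0
  | [], A, hA, _, i, j => hA i j
  | k :: L, A, hA, h, i, j => by
    refine pivL_cont L (fun η => piv (A η) k) ?_ h.2 i j
    intro i j
    exact (hA i j).sub (((hA i k).mul (hA k j)).div (hA k k) h.1)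

theorem amat_cont (s c d ε : ℝ) (i j : Ix N) : Continuous (fun η => amat N s c d ε η i j) := by
  rcases i with i | i <;> rcases j with j | j <;> simp only [amat] <;> split_ifs <;> fun_prop

theorem TZ_amat (s c d ε : ℝ) : TZ (amat N s c d ε 0) ∅ := by
  constructor
  · intro i _; simp [amat]
  · intro i j _ _ hij
    have h1 : (i:ℕ) < j := hij
    simp only [amat]
    rw [if_neg (by omega), if_neg (by omega)]; simp

/-- the special block at the start -/
def K0 (s d ε : ℝ) (a b : Fin 2) : ℝ := if a = 0 then (if b = 0 then s else d) else (if b = 0 then ε else s)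

theorem VZ_amat (s c d ε : ℝ) (m : Fin N) : VZ (K0 s d ε) m (amat N s c d ε 0) ∅ := by
  have hm := m.2
  constructor
  · intro a k _ hk
    have h1 : (k:ℕ) < m := hk
    simp only [amat]
    rw [if_neg (by omega)]; simp
  · intro k a _ hk
    have h1 : (m:ℕ) < k := hk
    simp only [amat]
    rw [if_neg (by omega)]; simp
  · intro k l _ _ hk hl
    have h1 : (m:ℕ) < k := hk
    have h2 : (l:ℕ) < m := hl
    simp only [amat]
    rw [if_neg (by omega), if_neg (by omega)]; simp
  · intro a b; rfl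

theorem FZ_amat (s c d ε : ℝ) :
    FZ (K0 s d ε) (fun a => if a = 0 then c else 1) (fun a => if a = 0 then 1 else c) (amat N s c d ε 0) 0 := by
  constructor
  · intro i j _ _; simp [amat]
  · intro i a _
    simp only [amat]
    split_ifs <;> simp
  · intro a j _
    simp only [amat]
    split_ifs <;> simp
  · intro _ a b; rfl
  · intro h1 h2; omega

theorem EC_eventually {s c d ε : ℝ} (hN : 0 < N) (hcs : c < s) (hd : 0 < d) (hdc : d < c * c)
    (hc1 : c < 1) (hdet : 0 < s * s - 2 * c * s + d) (hε : 0 < ε) (hεc : ε < c) :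
    ∀ᶠ η in 𝓝[>] (0:ℝ), ∀ Γ : List (Fin N), Γ.Nodup → EC c (pivL (amat N s c d ε η) (Γ.map inl)) Γ := by
  suffices h : ∀ᶠ η in 𝓝[>] (0:ℝ), ∀ Γ : {l : List (Fin N) // l.Nodup},
      EC c (pivL (amat N s c d ε η) (Γ.1.map inl)) Γ.1 by
    filter_upwards [h] with η hη Γ hΓ
    exact hη ⟨Γ, hΓ⟩
  have : Finite {l : List (Fin N) // l.Nodup} := Finite.of_fintype _
  rw [eventually_all]
  rintro ⟨Γ, hΓ⟩
  obtain ⟨hT, hP⟩ := PNZ_zero (TZ_amat (N := N) s c d ε) Γ hΓ
  have hcont := pivL_cont (Γ.map inl) (amat N s c d ε) (fun i j => (amat_cont s c d ε i j).continuousAt) hP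
  have hcont' : ∀ i j, Tendsto (fun η => pivL (amat N s c d ε η) (Γ.map inl) i j) (𝓝[>] 0)
      (𝓝 (pivL (amat N s c d ε 0) (Γ.map inl) i j)) := fun i j => (hcont i j).tendsto.mono_left nhdsWithin_le_nhds
  have hdiag : ∀ᶠ η in 𝓝[>] (0:ℝ), ∀ i : Fin N, i ∉ Γ → 0 < pivL (amat N s c d ε η) (Γ.map inl) (inl i) (inl i) := by
    rw [eventually_all]
    intro i
    by_cases hi : i ∈ Γ
    · exact Eventually.of_forall fun η h => absurd hi h
    · have := (hcont' (inl i) (inl i)).eventually (lt_mem_nhds (a := 0) (by rw [hT.diag i hi]; exact one_pos))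
      filter_upwards [this] with η h _
      exact h
  have hlow : ∀ᶠ η in 𝓝[>] (0:ℝ), Γ.length < N →
      c < pivL (amat N s c d ε η) (Γ.map inl) (inr 0) (inr 0) ∧
      c < pivL (amat N s c d ε η) (Γ.map inl) (inr 1) (inr 1) ∧
      0 < pivL (amat N s c d ε η) (Γ.map inl) (inr 0) (inr 1) ∧
      0 < pivL (amat N s c d ε η) (Γ.map inl) (inr 1) (inr 0) ∧
      0 < pivL (amat N s c d ε η) (Γ.map inl) (inr 0) (inr 0) * pivL (amat N s c d ε η) (Γ.map inl) (inr 1) (inr 1)
        - pivL (amat N s c d ε η) (Γ.map inl) (inr 0) (inr 1) * pivL (amat N s c d ε η) (Γ.map inl) (inr 1) (inr 0) := by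
    by_cases hl : Γ.length < N
    · obtain ⟨m, hm⟩ : ∃ m, m ∉ Γ := by
        by_contra hcon
        push Not at hcon
        have h1 : Γ.toFinset = Finset.univ := by
          ext x; simp [hcon x]
        have h2 := List.toFinset_card_of_nodup hΓ
        rw [h1] at h2
        simp at h2
        omega
      have hV := VZ_list (VZ_amat (N := N) s c d ε m) Γ hΓ hm
      have v00 : pivL (amat N s c d ε 0) (Γ.map inl) (inr 0) (inr 0) = s := by rw [hV.blk]; simp [K0]
      have v01 : pivL (amat N s c d ε 0) (Γ.map inl) (inr 0) (inr 1) = d := by rw [hV.blk]; simp [K0]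
      have v10 : pivL (amat N s c d ε 0) (Γ.map inl) (inr 1) (inr 0) = ε := by rw [hV.blk]; simp [K0]
      have v11 : pivL (amat N s c d ε 0) (Γ.map inl) (inr 1) (inr 1) = s := by rw [hV.blk]; simp [K0]
      have e1 := (hcont' (inr 0) (inr 0)).eventually (lt_mem_nhds (a := c) (by rw [v00]; exact hcs))
      have e2 := (hcont' (inr 1) (inr 1)).eventually (lt_mem_nhds (a := c) (by rw [v11]; exact hcs))
      have e3 := (hcont' (inr 0) (inr 1)).eventually (lt_mem_nhds (a := 0) (by rw [v01]; exact hd))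
      have e4 := (hcont' (inr 1) (inr 0)).eventually (lt_mem_nhds (a := 0) (by rw [v10]; exact hε))
      have e5 := (((hcont' (inr 0) (inr 0)).mul (hcont' (inr 1) (inr 1))).sub
        ((hcont' (inr 0) (inr 1)).mul (hcont' (inr 1) (inr 0)))).eventually (lt_mem_nhds (a := 0) (by
          rw [v00, v01, v10, v11]; nlinarith))
      filter_upwards [e1, e2, e3, e4, e5] with η h1 h2 h3 h4 h5 _
      exact ⟨h1, h2, h3, h4, h5⟩
    · exact Eventually.of_forall fun η h => absurd h hl
  have hfull : ∀ᶠ η in 𝓝[>] (0:ℝ), Γ = List.finRange N →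
      0 < pivL (amat N s c d ε η) (Γ.map inl) (inr 0) (inr 0) ∧
      0 < pivL (amat N s c d ε η) (Γ.map inl) (inr 1) (inr 1) ∧
      pivL (amat N s c d ε η) (Γ.map inl) (inr 0) (inr 1) < 0 ∧
      pivL (amat N s c d ε η) (Γ.map inl) (inr 1) (inr 0) < 0 ∧
      0 < pivL (amat N s c d ε η) (Γ.map inl) (inr 0) (inr 0) * pivL (amat N s c d ε η) (Γ.map inl) (inr 1) (inr 1)
        - pivL (amat N s c d ε η) (Γ.map inl) (inr 0) (inr 1) * pivL (amat N s c d ε η) (Γ.map inl) (inr 1) (inr 0) := by
    by_cases hl : Γ = List.finRange N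
    · have hF := FZ_list (FZ_amat (N := N) s c d ε) N le_rfl
      have hb := hF.blkN rfl hN
      have htake : (List.finRange N).take N = List.finRange N := by
        apply List.take_of_length_le; simp
      rw [htake, ← hl] at hb
      have v00 : pivL (amat N s c d ε 0) (Γ.map inl) (inr 0) (inr 0) = s - c := by rw [hb]; simp [K0]
      have v01 : pivL (amat N s c d ε 0) (Γ.map inl) (inr 0) (inr 1) = d - c * c := by rw [hb]; simp [K0]
      have v10 : pivL (amat N s c d ε 0) (Γ.map inl) (inr 1) (inr 0) = ε - 1 := by rw [hb]; simp [K0]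
      have v11 : pivL (amat N s c d ε 0) (Γ.map inl) (inr 1) (inr 1) = s - c := by rw [hb]; simp [K0]
      have e1 := (hcont' (inr 0) (inr 0)).eventually (lt_mem_nhds (a := 0) (by rw [v00]; linarith))
      have e2 := (hcont' (inr 1) (inr 1)).eventually (lt_mem_nhds (a := 0) (by rw [v11]; linarith))
      have e3 := (hcont' (inr 0) (inr 1)).eventually_lt_const (u := 0) (by rw [v01]; linarith)
      have e4 := (hcont' (inr 1) (inr 0)).eventually_lt_const (u := 0) (by rw [v10]; linarith)
      have e5 := (((hcont' (inr 0) (inr 0)).mul (hcont' (inr 1) (inr 1))).sub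
        ((hcont' (inr 0) (inr 1)).mul (hcont' (inr 1) (inr 0)))).eventually (lt_mem_nhds (a := 0) (by
          rw [v00, v01, v10, v11]; nlinarith [mul_pos hε (sub_pos.mpr hdc)]))
      filter_upwards [e1, e2, e3, e4, e5] with η h1 h2 h3 h4 h5 _
      exact ⟨h1, h2, h3, h4, h5⟩
    · exact Eventually.of_forall fun η h => absurd h hl
  filter_upwards [hdiag, hlow, hfull] with η h1 h2 h3
  exact ⟨h1, h2, h3⟩

theorem elim_eventually {s c d ε : ℝ} (hN : 0 < N) (hcs : c < s) (hd : 0 < d) (hdc : d < c * c)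
    (hc1 : c < 1) (hdet : 0 < s * s - 2 * c * s + d) (hε : 0 < ε) (hεc : ε < c) :
    ∀ᶠ η in 𝓝[>] (0:ℝ), Elim (amat N s c d ε η) := by
  have hc : 0 < c := hε.trans hεc
  filter_upwards [EC_eventually hN hcs hd hdc hc1 hdet hε hεc, self_mem_nhdsWithin] with η h1 h2
  exact elim_of_EC hc (SC.init h2 hd hdc hc1 hε hεc N) h1


end Example

section Unstable

open Sum Filter Topology Complex

theorem multiset_norm_bound {a : ℝ} (ha : 0 ≤ a) (s : Multiset ℂ) (h : ∀ r ∈ s, a ≤ ‖r‖) :
    a ^ (Multiset.card s) ≤ ‖s.prod‖ := by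
  induction s using Multiset.induction_on with
  | empty => simp
  | cons r s ih =>
    rw [Multiset.card_cons, Multiset.prod_cons, norm_mul, pow_succ, mul_comm]
    have h1 := h r (Multiset.mem_cons_self r s)
    have h2 := ih (fun t ht => h t (Multiset.mem_cons_of_mem ht))
    exact mul_le_mul h1 h2 (pow_nonneg ha _) (norm_nonneg _)

/-- if the determinant of `A + x` is too small, `A` has an eigenvalue with negative real part -/
theorem unstable_of_det_small {ι : Type*} [Fintype ι] [DecidableEq ι] (A : Matrix ι ι ℂ) (x : ℂ) (hx : 0 < x.re)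
    (hdet : ‖(A + x • (1 : Matrix ι ι ℂ)).det‖ < x.re ^ (Fintype.card ι)) : ∃ μ ∈ spectrum ℂ A, μ.re < 0 := by
  by_contra hcon
  push Not at hcon
  have hcard : Multiset.card (A + x • (1 : Matrix ι ι ℂ)).charpoly.roots = Fintype.card ι := by
    rw [← Matrix.charpoly_natDegree_eq_dim (A + x • (1 : Matrix ι ι ℂ))]
    exact (Polynomial.splits_iff_card_roots.mp (IsAlgClosed.splits _))
  have hb := multiset_norm_bound hx.le (A + x • (1 : Matrix ι ι ℂ)).charpoly.roots (fun r hr => by
    have h1 : r ∈ spectrum ℂ (A + x • (1 : Matrix ι ι ℂ)) := by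
      rw [Matrix.mem_spectrum_iff_isRoot_charpoly]
      exact (Polynomial.mem_roots'.mp hr).2
    have h2 : r - x ∈ spectrum ℂ A := by
      rw [spectrum.mem_iff] at h1 ⊢
      have e : (algebraMap ℂ (Matrix ι ι ℂ)) (r - x) - A = (algebraMap ℂ (Matrix ι ι ℂ)) r - (A + x • (1 : Matrix ι ι ℂ)) := by
        rw [map_sub, Algebra.algebraMap_eq_smul_one x]
        abel
      rw [e]; exact h1
    have h3 := hcon _ h2
    rw [Complex.sub_re] at h3
    calc x.re ≤ r.re := by linarith
      _ ≤ ‖r‖ := Complex.re_le_norm r)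
  rw [hcard, ← Matrix.det_eq_prod_roots_charpoly] at hb
  linarith

/-- the complex shifted matrix -/
noncomputable def cmat (N : ℕ) (s c d ε η : ℝ) : Matrix (Ix N) (Ix N) ℂ := (amat N s c d ε η).map (fun t => (t : ℂ))

theorem amat_cont_eps (N : ℕ) (s c d : ℝ) (i j : Ix N) : Continuous (fun ε => amat N s c d ε 0 i j) := by
  rcases i with i | i <;> rcases j with j | j <;> simp only [amat] <;> split_ifs <;> fun_prop

theorem det_cont_eta (N : ℕ) (s c d ε : ℝ) (x : ℂ) :
    Continuous (fun η => (cmat N s c d ε η + x • (1 : Matrix (Ix N) (Ix N) ℂ)).det) := by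
  refine Continuous.matrix_det ?_
  refine Continuous.add ?_ continuous_const
  refine continuous_matrix ?_
  intro i j
  exact Complex.continuous_ofReal.comp (amat_cont s c d ε i j)

theorem det_cont_eps (N : ℕ) (s c d : ℝ) (x : ℂ) :
    Continuous (fun ε => (cmat N s c d ε 0 + x • (1 : Matrix (Ix N) (Ix N) ℂ)).det) := by
  refine Continuous.matrix_det ?_
  refine Continuous.add ?_ continuous_const
  refine continuous_matrix ?_
  intro i j
  exact Complex.continuous_ofReal.comp (amat_cont_eps N s c d i j)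

theorem exists_unstable {N : ℕ} (hN : 0 < N) {s c d : ℝ} (hc : 0 < c) (hcs : c < s) (hd : 0 < d) (hdc : d < c * c)
    (hc1 : c < 1) (hdet : 0 < s * s - 2 * c * s + d) (x : ℂ) (hx : 0 < x.re)
    (hroot : (cmat N s c d 0 0 + x • (1 : Matrix (Ix N) (Ix N) ℂ)).det = 0) :
    ∃ A : Matrix (Ix N) (Ix N) ℝ, Elim A ∧ ∃ μ ∈ spectrum ℂ (A.map (fun t => (t : ℂ))), μ.re < 0 := by
  have hpos : 0 < x.re ^ (Fintype.card (Ix N)) := pow_pos hx _
  have h1 : ∀ᶠ ε in 𝓝[>] (0:ℝ), ‖(cmat N s c d ε 0 + x • (1 : Matrix (Ix N) (Ix N) ℂ)).det‖ < x.re ^ (Fintype.card (Ix N)) := by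
    have ht : Tendsto (fun ε => ‖(cmat N s c d ε 0 + x • (1 : Matrix (Ix N) (Ix N) ℂ)).det‖) (𝓝[>] 0)
        (𝓝 ‖(cmat N s c d 0 0 + x • (1 : Matrix (Ix N) (Ix N) ℂ)).det‖) :=
      ((det_cont_eps N s c d x).norm.tendsto 0).mono_left nhdsWithin_le_nhds
    exact ht.eventually_lt_const (by rw [hroot]; simpa using hpos)
  have h2 : ∀ᶠ ε in 𝓝[>] (0:ℝ), ε < c := by
    have ht : Tendsto (fun ε : ℝ => ε) (𝓝[>] 0) (𝓝 0) := tendsto_id.mono_left nhdsWithin_le_nhds
    exact ht.eventually_lt_const hc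
  obtain ⟨ε, hε1, hε2, hε3⟩ := (h1.and (h2.and self_mem_nhdsWithin)).exists
  have h3 : ∀ᶠ η in 𝓝[>] (0:ℝ), ‖(cmat N s c d ε η + x • (1 : Matrix (Ix N) (Ix N) ℂ)).det‖ < x.re ^ (Fintype.card (Ix N)) := by
    have ht : Tendsto (fun η => ‖(cmat N s c d ε η + x • (1 : Matrix (Ix N) (Ix N) ℂ)).det‖) (𝓝[>] 0)
        (𝓝 ‖(cmat N s c d ε 0 + x • (1 : Matrix (Ix N) (Ix N) ℂ)).det‖) :=
      ((det_cont_eta N s c d ε x).norm.tendsto 0).mono_left nhdsWithin_le_nhds
    exact ht.eventually_lt_const hε1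
  obtain ⟨η, hη1, hη2⟩ := ((elim_eventually hN hcs hd hdc hc1 hdet hε3 hε2).and h3).exists
  exact ⟨amat N s c d ε η, hη1, unstable_of_det_small _ x hx hη2⟩

theorem sum_chain (N : ℕ) (i : Fin N) (v : Fin N → ℂ) :
    ∑ j : Fin N, ((if (i:ℕ) = j then (1:ℂ) else if (i:ℕ) = j + 1 then -1 else 0)) * v j
      = v i - (if h : 0 < (i:ℕ) then v ⟨(i:ℕ) - 1, by omega⟩ else 0) := by
  have h1 : ∀ j : Fin N, ((if (i:ℕ) = j then (1:ℂ) else if (i:ℕ) = j + 1 then -1 else 0)) * v j
      = (if i = j then v j else 0) - (if (i:ℕ) = j + 1 then v j else 0) := by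
    intro j
    by_cases h : i = j
    · subst h; simp
    · have h' : ¬ ((i:ℕ) = j) := fun hh => h (Fin.ext hh)
      rw [if_neg h', if_neg h]
      split_ifs <;> simp
  rw [Finset.sum_congr rfl (fun j _ => h1 j), Finset.sum_sub_distrib]
  congr 1
  · simp
  · by_cases h : 0 < (i:ℕ)
    · rw [dif_pos h, Finset.sum_eq_single ⟨(i:ℕ) - 1, by omega⟩]
      · rw [if_pos (by simp; omega)]
      · intro b _ hb
        rw [if_neg]
        intro hh
        apply hb
        ext; simp; omega
      · simp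
    · rw [dif_neg h]
      apply Finset.sum_eq_zero
      intro j _
      rw [if_neg (by omega)]

theorem root_of_eq {N : ℕ} (hN : 0 < N) {s c d : ℝ} (x : ℂ)
    (h : (1 + x) ^ N * (s + x) ^ 2 - 2 * c * (s + x) + d = 0) :
    (cmat N s c d 0 0 + x • (1 : Matrix (Ix N) (Ix N) ℂ)).det = 0 := by
  rw [← Matrix.exists_mulVec_eq_zero_iff]
  have f2 : ∀ a : Fin 2, a = 0 ∨ a = 1 := by decide
  have h10 : ((1 : Fin 2) = 0) = False := by simp
  let v : Ix N → ℂ := Sum.elim (fun k => (s + x) * (1 + x) ^ (N - 1 - (k:ℕ)))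
    (fun a => if a = 0 then (s + x) * (1 + x) ^ N - c else 1)
  refine ⟨v, ?_, ?_⟩
  · intro hv
    have := congrFun hv (inr 1)
    simp [v] at this
  · rw [Matrix.add_mulVec, Matrix.smul_mulVec, Matrix.one_mulVec]
    funext i
    rcases i with i | a
    · have e1 : (cmat N s c d 0 0).mulVec v (inl i) = (∑ j : Fin N, ((if (i:ℕ) = j then (1:ℂ) else if (i:ℕ) = j + 1 then -1 else 0)) * v (inl j))
          + (if (i:ℕ) = 0 then -(v (inr 0)) - c * v (inr 1) else 0) := by
        simp only [Matrix.mulVec, dotProduct, Fintype.sum_sum_type, Fin.sum_univ_two]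
        congr 1
        · apply Finset.sum_congr rfl
          intro j _
          congr 1
          simp only [cmat, Matrix.map_apply, amat]
          split_ifs <;> simp
        · simp only [cmat, Matrix.map_apply, amat, h10, if_false, if_true]
          split_ifs <;> simp
          ring
      simp only [Pi.add_apply, Pi.smul_apply, Pi.zero_apply, smul_eq_mul]
      rw [e1, sum_chain N i (fun j => v (inl j))]
      by_cases hi : (i:ℕ) = 0
      · rw [if_pos hi, dif_neg (by omega)]
        simp only [v, Sum.elim_inl, Sum.elim_inr, hi]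
        have : (1 + x) ^ N = (1 + x) * (1 + x) ^ (N - 1 - 0) := by
          rw [← pow_succ']; congr 1; omega
        rw [this]; simp; ring
      · rw [if_neg hi, dif_pos (by omega)]
        simp only [v, Sum.elim_inl]
        have : (1 + x) ^ (N - 1 - ((i:ℕ) - 1)) = (1 + x) * (1 + x) ^ (N - 1 - (i:ℕ)) := by
          rw [← pow_succ']; congr 1; have := i.2; omega
        rw [this]; ring
    · have e2 : ∀ (y : ℂ), ∑ j : Fin N, (if (j:ℕ) + 1 = N then y else 0) * v (inl j) = y * (s + x) := by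
        intro y
        rw [Finset.sum_eq_single ⟨N - 1, by omega⟩]
        · rw [if_pos (by simp; omega)]
          simp [v]
        · intro b _ hb
          rw [if_neg, zero_mul]
          intro hh
          apply hb
          ext; simp; omega
        · simp
      have e1 : (cmat N s c d 0 0).mulVec v (inr a) = (∑ j : Fin N, (if (j:ℕ) + 1 = N then (if a = 0 then -(c:ℂ) else -1) else 0) * v (inl j))
          + ((if a = 0 then (s:ℂ) else 0) * v (inr 0) + (if a = 0 then (d:ℂ) else s) * v (inr 1)) := by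
        simp only [Matrix.mulVec, dotProduct, Fintype.sum_sum_type, Fin.sum_univ_two]
        congr 1
        · apply Finset.sum_congr rfl
          intro j _
          congr 1
          simp only [cmat, Matrix.map_apply, amat]
          split_ifs <;> simp
        · simp only [cmat, Matrix.map_apply, amat, h10, if_false, if_true]
          split_ifs <;> simp
      simp only [Pi.add_apply, Pi.smul_apply, Pi.zero_apply, smul_eq_mul]
      rw [e1, e2]
      rcases f2 a with rfl | rfl
      · simp only [v, Sum.elim_inr]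
        simp
        linear_combination h
      · simp only [v, Sum.elim_inr]
        simp


/-- squaring of a Gaussian integer -/
def gsq (z : ℤ × ℤ) : ℤ × ℤ := (z.1 * z.1 - z.2 * z.2, 2 * z.1 * z.2)

/-- the real and imaginary part of `(8001 + 185 i) ^ 256` -/
def PQ : ℤ × ℤ := gsq (gsq (gsq (gsq (gsq (gsq (gsq (gsq (8001, 185))))))))

def numJ : ℤ := PQ.1 * 4162130 + PQ.2 * 905424
def numR : ℤ := PQ.1 * 905424 - PQ.2 * 4162130
def numM : ℤ := 8000 ^ 256 * 56000 ^ 2

theorem num_facts : 0 < numJ ∧ 800 * 35 * numJ < 37 * numM ∧ 1295 * numR < 1607 * numJ ∧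
    (1607 * numJ - 1295 * numR) * 37 * 37 * numM < 1295 * 800 * 800 * numJ * numJ ∧
    0 < 1295 * numM + 1225 * 7 * numJ - 1225 * 1295 * numR := by
  decide +kernel

/-- Gaussian integer as a complex number -/
noncomputable def toC (z : ℤ × ℤ) : ℂ := (z.1 : ℂ) + (z.2 : ℂ) * I

theorem toC_gsq (z : ℤ × ℤ) : toC (gsq z) = toC z ^ 2 := by
  simp only [toC, gsq]
  push_cast
  have h : I ^ 2 = -1 := I_sq
  linear_combination (-(z.2 : ℂ) ^ 2) * h

theorem toC_PQ : toC PQ = (8001 + 185 * I) ^ 256 := by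
  have h0 : toC (8001, 185) = 8001 + 185 * I := by simp [toC]
  simp only [PQ, toC_gsq, h0, ← pow_mul]

theorem root_num (p q D : ℝ) :
    (((p : ℂ) + q * I) / D) * ((1607 + 1295 * I) / 56000) ^ 2
      - 2 * ((800 * (p * 4162130 + q * 905424) / (37 * (D * 56000 ^ 2)) : ℝ) : ℂ) * ((1607 + 1295 * I) / 56000)
      + (((1607 * (p * 4162130 + q * 905424) - 1295 * (p * 905424 - q * 4162130)) / (1295 * (D * 56000 ^ 2)) : ℝ) : ℂ) = 0 := by
  have h : I ^ 2 = -1 := I_sq
  push_cast
  linear_combination ((1295 ^ 2 * (p + q * I) + 4162130 * q) / (D * 56000 ^ 2)) * h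


/-- the numerical data: `N = 256`, `s = 1/35`, root at `-(1 + 185 i)/8000` -/
theorem exists_data : ∃ c d : ℝ, 0 < c ∧ c < 1 / 35 ∧ 0 < d ∧ d < c * c ∧ c < 1 ∧
    0 < (1 / 35) * (1 / 35) - 2 * c * (1 / 35) + d ∧
    (1 + (1 + 185 * I) / 8000) ^ 256 * (((1 / 35 : ℝ) : ℂ) + (1 + 185 * I) / 8000) ^ 2
      - 2 * c * (((1 / 35 : ℝ) : ℂ) + (1 + 185 * I) / 8000) + d = 0 := by
  obtain ⟨n1, n2, n3, n4, n5⟩ := num_facts
  have hM : (0 : ℤ) < numM := by unfold numM; positivity
  have n1' : (0:ℝ) < numJ := by exact_mod_cast n1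
  have n2' : (800:ℝ) * 35 * numJ < 37 * numM := by exact_mod_cast n2
  have n3' : (1295:ℝ) * numR < 1607 * numJ := by exact_mod_cast n3
  have n4' : ((1607:ℝ) * numJ - 1295 * numR) * 37 * 37 * numM < 1295 * 800 * 800 * numJ * numJ := by exact_mod_cast n4
  have n5' : (0:ℝ) < 1295 * numM + 1225 * 7 * numJ - 1225 * 1295 * numR := by exact_mod_cast n5
  have hM' : (0:ℝ) < numM := by exact_mod_cast hM
  refine ⟨800 * numJ / (37 * numM), (1607 * numJ - 1295 * numR) / (1295 * numM), by positivity, ?_, ?_, ?_, ?_, ?_, ?_⟩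
  · rw [div_lt_div_iff₀ (by positivity) (by norm_num)]; linarith
  · apply div_pos (by linarith) (by positivity)
  · rw [div_mul_div_comm, div_lt_div_iff₀ (by positivity) (by positivity)]
    have := mul_lt_mul_of_pos_right n4' hM'
    nlinarith [this]
  · rw [div_lt_one (by positivity)]; linarith
  · have e : (1 / 35 : ℝ) * (1 / 35) - 2 * (800 * numJ / (37 * numM)) * (1 / 35) + (1607 * numJ - 1295 * numR) / (1295 * numM)
        = (1295 * numM + 1225 * 7 * numJ - 1225 * 1295 * numR) / (1225 * 1295 * numM) := by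
      field_simp
      ring
    rw [e]
    apply div_pos n5' (by positivity)
  · have h1 : (1 + (1 + 185 * I) / 8000 : ℂ) = (8001 + 185 * I) / 8000 := by ring
    have h2 : (((1 / 35 : ℝ) : ℂ) + (1 + 185 * I) / 8000) = (1607 + 1295 * I) / 56000 := by
      push_cast; ring
    have h3 := root_num (PQ.1 : ℝ) (PQ.2 : ℝ) (8000 ^ 256)
    rw [h1, h2, div_pow, ← toC_PQ]
    have e1 : toC PQ = ((PQ.1 : ℝ) : ℂ) + ((PQ.2 : ℝ) : ℂ) * I := by simp [toC]
    have e2 : ((8000:ℂ) ^ 256) = (((8000:ℝ) ^ 256 : ℝ) : ℂ) := by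
      simp only [Complex.ofReal_pow, Complex.ofReal_ofNat]
    have eM : (numM : ℝ) = 8000 ^ 256 * 56000 ^ 2 := by
      simp only [numM, Int.cast_mul, Int.cast_pow, Int.cast_ofNat]
    have eJ : (numJ : ℝ) = PQ.1 * 4162130 + PQ.2 * 905424 := by unfold numJ; push_cast; rfl
    have eR : (numR : ℝ) = PQ.1 * 905424 - PQ.2 * 4162130 := by unfold numR; push_cast; rfl
    rw [e1, e2, eM, eJ, eR]
    exact h3

end Unstable

section Final

open Complex

theorem minor_eq {N : ℕ} (B : Matrix (Ix N) (Ix N) ℝ) (e : Fin (N + 2) ≃ Ix N) {k : ℕ}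
    (α β : Fin k ↪o Fin (N + 2)) :
    minor ((B.map (fun t => (t : ℂ))).submatrix e e) α β
      = ((B.submatrix (fun t => e (α t)) (fun t => e (β t))).det : ℝ) := by
  have h := Complex.ofRealHom.map_det (B.submatrix (fun t => e (α t)) (fun t => e (β t)))
  change ((B.submatrix (fun t => e (α t)) (fun t => e (β t))).det : ℂ) = _ at h
  rw [h]
  rfl

theorem strictGKK_of_elim {N : ℕ} {B : Matrix (Ix N) (Ix N) ℝ} (hB : Elim B) (e : Fin (N + 2) ≃ Ix N) :
    IsStrictGKK ((B.map (fun t => (t : ℂ))).submatrix e e) := by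
  constructor
  · intro k α
    rw [minor_eq]
    refine ⟨Complex.ofReal_im _, ?_⟩
    rw [Complex.ofReal_re]
    exact principal_pos hB (fun t => e (α t)) (fun a b h => α.injective (e.injective h))
  · intro k α β hd
    rw [minor_eq, minor_eq, ← Complex.ofReal_mul]
    refine ⟨Complex.ofReal_im _, ?_⟩
    rw [Complex.ofReal_re]
    apply almost_pos hB (fun t => e (α t)) (fun t => e (β t)) (fun a b h => α.injective (e.injective h))
      (fun a b h => β.injective (e.injective h))
    have h1 : Finset.univ.image (fun t => e (α t)) ∩ Finset.univ.image (fun t => e (β t))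
        = (Finset.univ.image α ∩ Finset.univ.image β).image e := by
      rw [Finset.image_inter _ _ e.injective, Finset.image_image, Finset.image_image]
      rfl
    rw [h1, Finset.card_image_of_injective _ e.injective]
    unfold dispersal at hd
    omega

/-- There is a strict GKK matrix having an eigenvalue with negative real part. -/
theorem result : ∃ (n : ℕ) (A : Matrix (Fin n) (Fin n) ℂ), IsStrictGKK A ∧ ∃ μ ∈ spectrum ℂ A, μ.re < 0 := by
  obtain ⟨c, d, hc, hcs, hd, hdc, hc1, hdet, hroot⟩ := exists_data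
  obtain ⟨B, hB, μ, hμ, hre⟩ := exists_unstable (N := 256) (by norm_num) hc hcs hd hdc hc1 hdet
    ((1 + 185 * I) / 8000) (by simp) (root_of_eq (by norm_num) _ hroot)
  let e : Fin (256 + 2) ≃ Ix 256 := finSumFinEquiv.symm
  refine ⟨256 + 2, (B.map (fun t => (t : ℂ))).submatrix e e, strictGKK_of_elim hB e, μ, ?_, hre⟩
  have h := AlgEquiv.spectrum_eq (Matrix.reindexAlgEquiv ℂ ℂ e.symm) (B.map (fun t => (t : ℂ)))
  rw [Matrix.coe_reindexAlgEquiv, Matrix.reindex_apply] at h
  rw [← h] at hμ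
  exact hμ

end Final

end Pool.Agent.Results.MP_25f4f2_al.Unstable
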